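import Pool.Agent.H2.NF.S3

/-!
# NF, row SEMAN: the primes of a number field above a prime number
-/

set_option autoImplicit false

namespace Pool.NF

open Polynomial Matrix Pool.HYP Pool.TOW Pool.AVS Pool.T1 IsDedekindDomain NumberField

namespace SEMAN

variable {K : Type} [Field K] [NumberField K]

theorem fin_above {m : ℕ} (hm : m ≠ 0) :
    {P : HeightOneSpectrum (𝓞 K) | Abv m P}.Finite := by
  have h1 : Ideal.span {(m : 𝓞 K)} ≠ 0 := by
    rw [Ideal.zero_eq_bot, Ne, Ideal.span_singleton_eq_bot]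
    exact_mod_cast hm
  refine (Ideal.finite_factors h1).subset fun P hP => ?_
  show P.asIdeal ∣ Ideal.span {(m : 𝓞 K)}
  rw [Ideal.dvd_span_singleton]
  exact hP

theorem ex_above {p : ℕ} (hp : p.Prime) : ∃ P : HeightOneSpectrum (𝓞 K), Abv p P := by
  have hpi : Prime (p : ℤ) := Nat.prime_iff_prime_int.1 hp
  have hmax : (Ideal.span {(p : ℤ)}).IsMaximal :=
    PrincipalIdealRing.isMaximal_of_irreducible hpi.irreducible
  obtain ⟨Q, hQ1, hQ2⟩ := Ideal.exists_ideal_over_maximal_of_isIntegral (S := 𝓞 K)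
    (Ideal.span {(p : ℤ)}) (by
      intro x hx
      have h1 : algebraMap ℤ (𝓞 K) x = 0 := hx
      have h2 : x = 0 := by
        have h3 : ((x : ℤ) : 𝓞 K) = 0 := h1
        exact_mod_cast h3
      rw [h2]
      exact Ideal.zero_mem _)
  have h2 : (p : 𝓞 K) ∈ Q := by
    have h3 : (p : ℤ) ∈ Ideal.comap (algebraMap ℤ (𝓞 K)) Q := by
      rw [hQ2]
      exact Ideal.mem_span_singleton_self _
    have h4 : algebraMap ℤ (𝓞 K) (p : ℤ) ∈ Q := h3
    simpa using h4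
  refine ⟨⟨Q, hQ1.isPrime, ?_⟩, h2⟩
  rintro rfl
  have h3 : (p : 𝓞 K) = 0 := Ideal.mem_bot.1 h2
  exact hp.ne_zero (by exact_mod_cast h3)

theorem under_eq {p : ℕ} (hp : p.Prime) {P : HeightOneSpectrum (𝓞 K)} (hP : Abv p P) (j : ℤ) :
    (j : 𝓞 K) ∈ P.asIdeal ↔ (p : ℤ) ∣ j := by
  constructor
  · intro hj
    by_contra hd
    have hc : IsCoprime (p : ℤ) j :=
      (Nat.prime_iff_prime_int.1 hp).irreducible.coprime_iff_not_dvd.2 hd
    obtain ⟨a, b, hab⟩ := hc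
    have h1 : (1 : 𝓞 K) = (a : 𝓞 K) * (p : 𝓞 K) + (b : 𝓞 K) * (j : 𝓞 K) := by
      have := congrArg (fun z : ℤ => (z : 𝓞 K)) hab
      push_cast at this
      exact this.symm
    apply P.isPrime.ne_top
    rw [Ideal.eq_top_iff_one, h1]
    exact Ideal.add_mem _ (Ideal.mul_mem_left _ _ hP) (Ideal.mul_mem_left _ _ hj)
  · rintro ⟨c, rfl⟩
    push_cast
    exact Ideal.mul_mem_right _ _ hP

theorem ex_below (P : HeightOneSpectrum (𝓞 K)) : ∃ p : ℕ, p.Prime ∧ Abv p P := by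
  have hpr : (Ideal.comap (algebraMap ℤ (𝓞 K)) P.asIdeal).IsPrime :=
    Ideal.comap_isPrime (algebraMap ℤ (𝓞 K)) P.asIdeal
  have hne : Ideal.comap (algebraMap ℤ (𝓞 K)) P.asIdeal ≠ ⊥ := by
    obtain ⟨x, hx, hx0⟩ := Submodule.exists_mem_ne_zero_of_ne_bot P.ne_bot
    exact Ideal.comap_ne_bot_of_integral_mem hx0 hx (Algebra.IsIntegral.isIntegral x)
  obtain ⟨q, hq⟩ := (IsPrincipalIdealRing.principal
    (Ideal.comap (algebraMap ℤ (𝓞 K)) P.asIdeal)).principal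
  have hq' : Ideal.comap (algebraMap ℤ (𝓞 K)) P.asIdeal = Ideal.span {q} := hq
  have hq0 : q ≠ 0 := by
    rintro rfl
    refine hne (hq'.trans ?_)
    rw [Ideal.span_singleton_eq_bot]
  have hqp : Prime q := by
    rw [hq'] at hpr
    exact (Ideal.span_singleton_prime hq0).1 hpr
  have hqP : algebraMap ℤ (𝓞 K) q ∈ P.asIdeal := by
    have h1 : q ∈ Ideal.comap (algebraMap ℤ (𝓞 K)) P.asIdeal := by
      rw [hq']
      exact Ideal.mem_span_singleton_self q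
    exact h1
  have hqP2 : (q : 𝓞 K) ∈ P.asIdeal := by simpa using hqP
  refine ⟨q.natAbs, Int.prime_iff_natAbs_prime.1 hqp, ?_⟩
  show ((q.natAbs : ℕ) : 𝓞 K) ∈ P.asIdeal
  have h2 : ((q.natAbs : ℕ) : 𝓞 K) = ((q.natAbs : ℤ) : 𝓞 K) :=
    (Int.cast_natCast q.natAbs).symm
  rw [h2]
  rcases Int.natAbs_eq q with h | h
  · rw [← h]
    exact hqP2
  · have h3 : (q.natAbs : ℤ) = -q := by rw [h]; simp
    rw [h3]
    push_cast
    exact (Ideal.neg_mem_iff _).2 hqP2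

theorem main {p : ℕ} (hp : p.Prime) {P : HeightOneSpectrum (𝓞 K)} (hP : Abv p P) (x : ℚ) :
    (x : K) ∈ RP K P ↔ x ∈ IZ p := by
  have hd0 : (x.den : K) ≠ 0 := by
    exact_mod_cast x.den_nz
  have e1 : algebraMap (𝓞 K) K ((x.num : ℤ) : 𝓞 K) = (x.num : K) := map_intCast _ _
  have e2 : algebraMap (𝓞 K) K ((x.den : ℕ) : 𝓞 K) = (x.den : K) := map_natCast _ _
  have hx : (x : K) * (x.den : K) = (x.num : K) := by
    have h1 : (x : ℚ) * (x.den : ℚ) = (x.num : ℚ) := Rat.mul_den_eq_num x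
    exact_mod_cast congrArg (fun z : ℚ => (z : K)) h1
  constructor
  · rintro ⟨m, hm, a, ha⟩ hdvd
    have h1 : m * (x.num : 𝓞 K) = a * (x.den : 𝓞 K) := by
      apply IsFractionRing.injective (𝓞 K) K
      rw [map_mul, map_mul, e1, e2, ← hx, ← ha]
      ring
    have h2 : m * (x.num : 𝓞 K) ∈ P.asIdeal := by
      rw [h1]
      have h3 : ((x.den : ℤ) : 𝓞 K) ∈ P.asIdeal := by
        rw [under_eq hp hP]
        exact_mod_cast hdvd
      refine Ideal.mul_mem_left _ _ ?_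
      simpa using h3
    rcases P.isPrime.mem_or_mem h2 with h3 | h3
    · exact hm h3
    · have h4 : (p : ℤ) ∣ x.num := (under_eq hp hP _).1 h3
      have h5 : p ∣ x.num.natAbs := Int.natCast_dvd.1 h4
      have h6 := x.reduced
      exact Nat.not_coprime_of_dvd_of_dvd hp.one_lt h5 hdvd h6
  · intro h
    refine ⟨(x.den : 𝓞 K), fun h1 => h ?_, (x.num : 𝓞 K), ?_⟩
    · have h2 : ((x.den : ℤ) : 𝓞 K) ∈ P.asIdeal := by simpa using h1
      exact_mod_cast (under_eq hp hP _).1 h2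
    · rw [e1, e2, ← hx, mul_comm]

end SEMAN

theorem seman : SEMANStmt := by
  intro K _ _
  refine ⟨fun m hm => SEMAN.fin_above hm, fun p hp => SEMAN.ex_above hp, fun P => ?_,
    fun p hp P hP => ⟨fun x => SEMAN.main hp hP x, fun j => SEMAN.under_eq hp hP j⟩⟩
  obtain ⟨p, hp, hP⟩ := SEMAN.ex_below P
  refine ⟨p, hp, hP, fun q hq hqP => ?_⟩
  have h0 : ((q : ℤ) : 𝓞 K) ∈ P.asIdeal := by
    have h3 : ((q : ℕ) : 𝓞 K) ∈ P.asIdeal := hqP
    simpa using h3
  have h1 : (p : ℤ) ∣ (q : ℤ) := (SEMAN.under_eq hp hP q).1 h0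
  have h2 : p ∣ q := by exact_mod_cast h1
  exact ((Nat.prime_dvd_prime_iff_eq hp hq).1 h2).symm

end Pool.NF
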