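import Pool.Agent.H2.NF.S3

/-!
# NF, row BASN: an integral basis
-/

set_option autoImplicit false

namespace Pool.NF

open Polynomial Matrix Pool.HYP Pool.TOW Pool.AVS Pool.T1 IsDedekindDomain NumberField

theorem basn : BASNStmt := by
  intro K _ _
  classical
  let e := Fintype.equivFin (Module.Free.ChooseBasisIndex ℤ (𝓞 K))
  let ω : Module.Basis (Fin (Fintype.card (Module.Free.ChooseBasisIndex ℤ (𝓞 K)))) ℚ K :=
    (integralBasis K).reindex e
  refine ⟨_, ω, ?_, ?_⟩
  · intro i
    show IsIntegral ℤ ((integralBasis K).reindex e i)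
    rw [Module.Basis.reindex_apply, integralBasis_apply]
    exact RingOfIntegers.isIntegral_coe _
  · have hdet : (trd ω).det ≠ 0 := by
      have h1 : trd ω = Algebra.traceMatrix ℚ ω := rfl
      rw [h1]
      exact Algebra.discr_not_zero_of_basis ℚ ω
    have hint : ∀ i, IsIntegral ℤ (ω i) := by
      intro i
      show IsIntegral ℤ ((integralBasis K).reindex e i)
      rw [Module.Basis.reindex_apply, integralBasis_apply]
      exact RingOfIntegers.isIntegral_coe _
    set d : ℚ := (trd ω).det with hd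
    have hfin : {p : ℕ | p ∣ d.num.natAbs ∨ p ∣ d.den}.Finite := by
      have h1 : d.num.natAbs ≠ 0 := Int.natAbs_ne_zero.2 (Rat.num_ne_zero.2 hdet)
      have h2 : d.den ≠ 0 := d.den_nz
      refine ((Finset.finite_toSet d.num.natAbs.divisors).union
        (Finset.finite_toSet d.den.divisors)).subset ?_
      rintro p (hp | hp)
      · left
        exact Finset.mem_coe.2 (Nat.mem_divisors.2 ⟨hp, h1⟩)
      · right
        exact Finset.mem_coe.2 (Nat.mem_divisors.2 ⟨hp, h2⟩)
    refine hfin.subset ?_
    rintro p ⟨hp, hg⟩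
    by_contra hc
    apply hg
    have hc1 : ¬ p ∣ d.num.natAbs := fun h => hc (Or.inl h)
    have hc2 : ¬ p ∣ d.den := fun h => hc (Or.inr h)
    refine ⟨hint, hdet, hc2, ?_⟩
    show ¬ p ∣ (d⁻¹).den
    rw [Rat.den_inv_of_ne_zero hdet]
    exact hc1

end Pool.NF
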