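import Pool.Agent.H2.NF.S3

/-!
# NF, row SEMBN: the elements regular at all primes above `p`
-/

set_option autoImplicit false

namespace Pool.NF

open Polynomial Matrix Pool.HYP Pool.TOW Pool.AVS Pool.T1 IsDedekindDomain NumberField

namespace SEMBN

theorem mem_IZ {p : ℕ} (hp : p.Prime) {a b : ℤ} (hb : ¬ (p : ℤ) ∣ b) {x : ℚ}
    (h : (b : ℚ) * x = (a : ℚ)) : x ∈ IZ p := by
  have hb0 : (b : ℚ) ≠ 0 := by
    intro h0
    apply hb
    have : b = 0 := by exact_mod_cast h0
    rw [this]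
    exact dvd_zero _
  intro hpx
  have h1 : (b : ℤ) * x.num = a * x.den := by
    have h2 : (x : ℚ) * (x.den : ℚ) = (x.num : ℚ) := Rat.mul_den_eq_num x
    have h3 : (b : ℚ) * (x.num : ℚ) = (a : ℚ) * (x.den : ℚ) := by
      rw [← h2, ← h]
      ring
    exact_mod_cast h3
  have h4 : (p : ℤ) ∣ b * x.num := by
    rw [h1]
    exact Dvd.dvd.mul_left (by exact_mod_cast hpx) _
  rcases (Nat.prime_iff_prime_int.1 hp).dvd_or_dvd h4 with h5 | h5
  · exact hb h5
  · have h6 : p ∣ x.num.natAbs := Int.natCast_dvd.1 h5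
    exact Nat.not_coprime_of_dvd_of_dvd hp.one_lt h6 hpx x.reduced

/-- The ideal of the `r` with `r a` integral. -/
def cond {K : Type} [Field K] (a : K) : Ideal (𝓞 K) where
  carrier := {r | IsIntegral ℤ (algebraMap (𝓞 K) K r * a)}
  zero_mem' := by
    show IsIntegral ℤ (algebraMap (𝓞 K) K 0 * a)
    rw [map_zero, zero_mul]
    exact isIntegral_zero
  add_mem' := by
    intro x y hx hy
    show IsIntegral ℤ (algebraMap (𝓞 K) K (x + y) * a)
    rw [map_add, add_mul]
    exact IsIntegral.add hx hy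
  smul_mem' := by
    intro c x hx
    show IsIntegral ℤ (algebraMap (𝓞 K) K (c * x) * a)
    rw [map_mul, mul_assoc]
    exact IsIntegral.mul (RingOfIntegers.isIntegral_coe c) hx

end SEMBN

open SEMBN

/-- **SEMBN.** -/
theorem sembn : SEMBNStmt := by
  intro K _ _ p hp a ha
  have hpi : Prime (p : ℤ) := Nat.prime_iff_prime_int.1 hp
  have h1 : ∃ h : ℤ, ¬ (p : ℤ) ∣ h ∧ IsIntegral ℤ ((h : K) * a) := by
    by_contra hno
    push Not at hno
    have hpp : (Ideal.span {(p : ℤ)}).IsPrime :=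
      (Ideal.span_singleton_prime hpi.ne_zero).2 hpi
    obtain ⟨Q, hQ1, hQ2, hQ3⟩ := Ideal.exists_ideal_over_prime_of_isIntegral (S := 𝓞 K)
      (Ideal.span {(p : ℤ)}) (cond a) (by
        intro h hh
        rw [Ideal.mem_span_singleton]
        by_contra hph
        apply hno h hph
        have h2 : IsIntegral ℤ (algebraMap (𝓞 K) K (algebraMap ℤ (𝓞 K) h) * a) := hh
        have h3 : algebraMap (𝓞 K) K (algebraMap ℤ (𝓞 K) h) = (h : K) := by simp
        rw [h3] at h2
        exact h2)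
    have hpQ : (p : 𝓞 K) ∈ Q := by
      have h2 : (p : ℤ) ∈ Ideal.comap (algebraMap ℤ (𝓞 K)) Q := by
        rw [hQ3]
        exact Ideal.mem_span_singleton_self _
      have h4 : algebraMap ℤ (𝓞 K) (p : ℤ) ∈ Q := h2
      simpa using h4
    have hp0 : (p : 𝓞 K) ≠ 0 := by
      exact_mod_cast hp.ne_zero
    have hQ0 : Q ≠ ⊥ := by
      rintro rfl
      exact hp0 (Ideal.mem_bot.1 hpQ)
    obtain ⟨m, hm, r, hr⟩ := ha ⟨Q, hQ2, hQ0⟩ hpQ
    apply hm
    apply hQ1
    show IsIntegral ℤ ((m : K) * a)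
    have h3 : (m : K) * a = (r : K) := hr
    rw [h3]
    exact RingOfIntegers.isIntegral_coe r
  refine ⟨h1, ?_⟩
  obtain ⟨h, hph, hint⟩ := h1
  have hsm : (h : K) * a = algebraMap ℚ K (h : ℚ) * a := by
    rw [map_intCast]
  constructor
  · obtain ⟨y, hy⟩ := (IsIntegrallyClosed.isIntegral_iff (K := ℚ)).1
      (Algebra.isIntegral_trace (L := ℚ) hint)
    refine mem_IZ hp hph (a := y) ?_
    have h4 : Algebra.trace ℚ K ((h : K) * a) = (h : ℚ) * Algebra.trace ℚ K a := by
      rw [hsm, ← Algebra.smul_def, map_smul, smul_eq_mul]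
    rw [← h4]
    exact hy.symm
  · obtain ⟨y, hy⟩ := (IsIntegrallyClosed.isIntegral_iff (K := ℚ)).1
      (Algebra.isIntegral_norm ℚ hint)
    have hph' : ¬ (p : ℤ) ∣ h ^ Module.finrank ℚ K := fun h5 => hph (hpi.dvd_of_dvd_pow h5)
    refine mem_IZ hp hph' (a := y) ?_
    have h4 : Algebra.norm ℚ ((h : K) * a) =
        ((h ^ Module.finrank ℚ K : ℤ) : ℚ) * Algebra.norm ℚ a := by
      rw [hsm, map_mul, Algebra.norm_algebraMap]
      push_cast
      rfl
    rw [← h4]
    exact hy.symm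

end Pool.NF
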